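import Pool.Agent.Zk16.Y.Stms

/-! Counting the points at one scale: grouping, parameters, the trivial bound. -/

set_option autoImplicit false

open Finset

namespace Pool.Agent.Zk77.Y16

open Pool.Agent.Zk16.Y Pool.Agent.W223.HZ Pool.Agent.Zk16.S

/-- the modulus `M₂` -/
theorem exM2 (m m₁ K : ℕ) (hm : 1 ≤ m) (h1 : 1 ≤ m₁) (hd : m₁ ∣ m) (hK : 1 ≤ K) :
    ∃ P : ℕ, 1 ≤ P ∧ P ^ K ≤ m₁ ∧ m₁ ∣ (rd m * P) ^ K := by
  classical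
  refine ⟨∏ p ∈ m₁.primeFactors, p ^ (m₁.factorization p / K), ?_, ?_, ?_⟩
  · exact Nat.succ_le_of_lt (Finset.prod_pos (fun p hp =>
      Nat.pow_pos (Nat.prime_of_mem_primeFactors hp).pos))
  · apply Nat.le_of_dvd h1
    have h2 : ∏ p ∈ m₁.primeFactors, p ^ m₁.factorization p = m₁ :=
      Nat.prod_factorization_pow_eq_self (by omega)
    conv_rhs => rw [← h2]
    rw [← Finset.prod_pow]
    apply Finset.prod_dvd_prod_of_dvd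
    intro p hp
    rw [← pow_mul]
    exact pow_dvd_pow _ (Nat.div_mul_le_self _ _)
  · have h2 : ∏ p ∈ m₁.primeFactors, p ^ m₁.factorization p = m₁ :=
      Nat.prod_factorization_pow_eq_self (by omega)
    conv_lhs => rw [← h2]
    have h3 : m₁.primeFactors ⊆ m.primeFactors := Nat.primeFactors_mono hd (by omega)
    have h4 : ∏ p ∈ m₁.primeFactors, p ∣ rd m := by
      unfold rd
      exact Finset.prod_dvd_prod_of_subset _ _ _ h3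
    refine dvd_trans ?_ (pow_dvd_pow_of_dvd (mul_dvd_mul_right h4 _) K)
    rw [← Finset.prod_mul_distrib, ← Finset.prod_pow]
    apply Finset.prod_dvd_prod_of_dvd
    intro p hp
    rw [← pow_succ', ← pow_mul]
    apply pow_dvd_pow
    have := Nat.lt_div_mul_add (a := m₁.factorization p) (b := K) (by omega)
    rw [Nat.add_mul, one_mul]
    omega

theorem rd_dvd_of {m ℓ : ℕ} (hm : 1 ≤ m) (hl : ℓ.Prime) (h : ℓ ∣ m) : ℓ ∣ rd m := by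
  unfold rd
  exact Finset.dvd_prod_of_mem _ (Nat.mem_primeFactors.mpr ⟨hl, h, by omega⟩)

theorem sq_dvd_rd {m r : ℕ} (hm : 1 ≤ m) (hr : Squarefree r) (h : r ∣ m) : r ∣ rd m := by
  have h1 : ∏ p ∈ r.primeFactors, p = r := Nat.prod_primeFactors_of_squarefree hr
  conv_lhs => rw [← h1]
  unfold rd
  exact Finset.prod_dvd_prod_of_subset _ _ _ (Nat.primeFactors_mono h (by omega))

theorem rd_pos (m : ℕ) : 1 ≤ rd m := by
  unfold rd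
  exact Nat.succ_le_of_lt (Finset.prod_pos (fun p hp => (Nat.prime_of_mem_primeFactors hp).pos))

/-- powers get large -/
theorem big {α : ℝ} (hα : 0 < α) (M : ℝ) : ∃ Z₀ : ℝ, 1 ≤ Z₀ ∧ ∀ Z : ℝ, Z₀ ≤ Z → M < Z ^ α := by
  refine ⟨(|M| + 1) ^ (1 / α), Real.one_le_rpow (by linarith [abs_nonneg M]) (by positivity), ?_⟩
  intro Z hZ
  have h0 : (0 : ℝ) < |M| + 1 := by positivity
  calc M ≤ |M| := le_abs_self M
    _ < |M| + 1 := by linarith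
    _ = ((|M| + 1) ^ (1 / α)) ^ α := by
        rw [← Real.rpow_mul h0.le, one_div, inv_mul_cancel₀ hα.ne', Real.rpow_one]
    _ ≤ Z ^ α := Real.rpow_le_rpow (by positivity) hZ hα.le

theorem mem_box {N : ℝ} {x : ℤ} (h : |(x : ℝ)| ≤ N) :
    x ∈ Finset.Icc (-((⌈N⌉₊ : ℕ) : ℤ)) ((⌈N⌉₊ : ℕ) : ℤ) := by
  have h1 : N ≤ (⌈N⌉₊ : ℝ) := Nat.le_ceil N
  have h2 := abs_le.mp (h.trans h1)
  rw [Finset.mem_Icc]
  constructor
  · have : ((-((⌈N⌉₊ : ℕ) : ℤ) : ℤ) : ℝ) ≤ (x : ℝ) := by push_cast; exact h2.1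
    exact_mod_cast this
  · have : (x : ℝ) ≤ (((⌈N⌉₊ : ℕ) : ℤ) : ℝ) := by push_cast; exact h2.2
    exact_mod_cast this

/-- the trivial bound -/
theorem triv {Z₀ A : ℝ} (hZ₀ : 1 ≤ Z₀) (hA : 1 ≤ A) : ∃ C : ℝ, 1 ≤ C ∧
    ∀ (Z R T V : ℝ) (m : ℕ) (S : Finset ((ℤ × ℤ × ℤ) × (ℤ × ℤ × ℤ))), 1 ≤ Z → Z ≤ Z₀ → 0 ≤ R →
    R ≤ Z → 1 / 2 ≤ T → T ^ 3 ≤ 200 * R → 0 ≤ V → V ≤ Z ^ A →
    (∀ u ∈ S, Gd R T V m u.1.1 u.1.2.1 u.1.2.2 u.2.1 u.2.2.1 u.2.2.2) → (S.card : ℝ) ≤ C := by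
  classical
  set W := Z₀ ^ A with hW
  have hW1 : 1 ≤ W := Real.one_le_rpow hZ₀ (by linarith)
  set N : ℝ := 40000 * (Z₀ ^ 2 * W) with hN
  set X : Finset ℤ := Finset.Icc (-((⌈N⌉₊ : ℕ) : ℤ)) ((⌈N⌉₊ : ℕ) : ℤ) with hX
  refine ⟨(((X ×ˢ X ×ˢ X) ×ˢ (X ×ˢ X ×ˢ X)).card : ℝ) + 1, ?_, ?_⟩
  · have : (0 : ℝ) ≤ (((X ×ˢ X ×ˢ X) ×ˢ (X ×ˢ X ×ˢ X)).card : ℝ) := Nat.cast_nonneg _
    linarith
  intro Z R T V m S hZ hZZ hR hRZ hT hT3 hV hVZ hS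
  have hsub : S ⊆ (X ×ˢ X ×ˢ X) ×ˢ (X ×ˢ X ×ˢ X) := by
    intro u hu
    obtain ⟨ha, hb, hc, hd, hp, hq, -⟩ := hS u hu
    have hT0 : 0 < T := by linarith
    have hVW : V ≤ W := hVZ.trans (Real.rpow_le_rpow (by linarith) hZZ (by linarith))
    have hRZ₀ : R ≤ Z₀ := hRZ.trans hZZ
    have hTZ : T ≤ 200 * Z₀ := by
      by_contra hcon
      push Not at hcon
      have h1 : 1 ≤ T := by linarith
      have h2 : T ≤ T ^ 3 := le_self_pow₀ h1 (by norm_num)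
      linarith
    have hT38 : 1 / 8 ≤ T ^ 3 := by
      calc (1 : ℝ) / 8 = (1 / 2) ^ 3 := by norm_num
        _ ≤ T ^ 3 := pow_le_pow_left₀ (by norm_num) hT 3
    have hZ2 : Z₀ ≤ Z₀ ^ 2 := le_self_pow₀ hZ₀ (by norm_num)
    have hZW : Z₀ ≤ Z₀ ^ 2 * W := by nlinarith
    have hZ2W : Z₀ ^ 2 ≤ Z₀ ^ 2 * W := le_mul_of_one_le_right (by positivity) hW1
    have hWZ : W ≤ Z₀ ^ 2 * W := le_mul_of_one_le_left (by linarith) (one_le_pow₀ hZ₀)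
    have ha' : |(u.1.1 : ℝ)| ≤ N := by
      have h0 := abs_nonneg (u.1.1 : ℝ)
      have : |(u.1.1 : ℝ)| * (1 / 8) ≤ |(u.1.1 : ℝ)| * T ^ 3 := by gcongr
      linarith
    have hb' : |(u.1.2.1 : ℝ)| ≤ N := by
      have h0 := abs_nonneg (u.1.2.1 : ℝ)
      have : |(u.1.2.1 : ℝ)| * (1 / 2) ≤ |(u.1.2.1 : ℝ)| * T := by gcongr
      linarith
    have hc' : |(u.1.2.2 : ℝ)| ≤ N := by
      have : R * T ≤ Z₀ * (200 * Z₀) := by gcongr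
      nlinarith
    have hd' : |(u.2.1 : ℝ)| ≤ N := by
      have : R * T ^ 3 ≤ Z₀ * (200 * Z₀) := by
        apply mul_le_mul hRZ₀ (by linarith) (by positivity) (by linarith)
      nlinarith
    have hp' : |(u.2.2.1 : ℝ)| ≤ N := by
      have h1 : T * V ≤ 200 * Z₀ * W := by gcongr
      have h2 : Z₀ * W ≤ Z₀ ^ 2 * W := by gcongr
      nlinarith
    have hq' : |(u.2.2.2 : ℝ)| ≤ N := by
      have h0 := abs_nonneg (u.2.2.2 : ℝ)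
      have : |(u.2.2.2 : ℝ)| * (1 / 2) ≤ |(u.2.2.2 : ℝ)| * T := by gcongr
      linarith
    simp only [Finset.mem_product]
    exact ⟨⟨mem_box ha', mem_box hb', mem_box hc'⟩, mem_box hd', mem_box hp', mem_box hq'⟩
  have h1 : ((S.card : ℕ) : ℝ) ≤ (((X ×ˢ X ×ˢ X) ×ˢ (X ×ˢ X ×ˢ X)).card : ℝ) := by
    exact_mod_cast Finset.card_le_card hsub
  linarith

/-- grouping and summation -/
theorem core (hG : S_GRP) (hS : S_SUM3) {A ε : ℝ} (hA : 1 ≤ A) (hε : 0 < ε) : ∃ C : ℝ, 1 ≤ C ∧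
    ∀ (Z R T V L B Φ c₀ : ℝ) (m m₁ r M₀ : ℕ) (φ : (ℤ × ℤ × ℤ) × (ℤ × ℤ × ℤ) → ℝ)
    (S : Finset ((ℤ × ℤ × ℤ) × (ℤ × ℤ × ℤ))), 1 ≤ Z → 1 ≤ R → 1 / 2 ≤ T → T ^ 3 ≤ 200 * R →
    1 ≤ V → 1 ≤ m → (m : ℝ) ≤ Z ^ A → 1 ≤ m₁ → m₁ ∣ m → Squarefree r → r ∣ m →
    (∀ ℓ : ℕ, ℓ.Prime → ℓ ∣ r → 5 ≤ ℓ) → 1 ≤ M₀ → (∀ ℓ : ℕ, ℓ.Prime → ℓ ∣ m₁ → ℓ ∣ M₀) →
    r ∣ M₀ → (M₀ : ℝ) ≤ L → L ≤ R * T ^ 3 → 0 ≤ B → 0 < c₀ → 0 < Φ →
    (∀ u ∈ S, Cf R T V m m₁ r u.1.1 u.1.2.1 u.1.2.2 u.2.1 u.2.2.1 u.2.2.2) →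
    (∀ u ∈ S, |φ u| ≤ Φ) →
    (∀ (w : ℤ × ℤ × ℤ) (S' : Finset (ℤ × ℤ × ℤ)), (∀ u ∈ S', (w, u) ∈ S) →
      (∀ u ∈ S', ∀ v ∈ S', Same m₁ M₀ L u v ∧ |φ (w, u) - φ (w, v)| ≤ c₀) →
      (S'.card : ℝ) ≤ B) →
    (S.card : ℝ) ≤ C * B * (M₀ / L) * (R ^ 4 / r) * (Φ / c₀ + 1) * Z ^ ε := by
  classical
  obtain ⟨CG, hCG, hG⟩ := hG
  obtain ⟨CS, hCS, hS⟩ := hS
  have hA0 : 0 < A := by linarith
  set γ := ε / (3 * A) with hγd
  have hγ : 0 < γ := by positivity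
  obtain ⟨C1, hC1, h4⟩ := omega_le hγ (by norm_num : (1 : ℝ) ≤ 4)
  obtain ⟨C2, hC2, h2⟩ := omega_le hγ (by norm_num : (1 : ℝ) ≤ 2)
  obtain ⟨C3, hC3, ht⟩ := Pool.Agent.Zk16.J.tau_le hγ
  refine ⟨CS * CG * C1 * C2 * C3, ?_, ?_⟩
  · exact one_le_mul_of_one_le_of_one_le (one_le_mul_of_one_le_of_one_le
      (one_le_mul_of_one_le_of_one_le (one_le_mul_of_one_le_of_one_le hCS hCG) hC1) hC2) hC3
  intro Z R T V L B Φ c₀ m m₁ r M₀ φ S hZ hR hT hT3 hV hm hmZ hm1 hd hr hrm hr5 hM hM1 hrM hML hLR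
    hB hc₀ hΦ hC hφ hgr
  have hT0 : 0 < T := by linarith
  have hR0 : 0 < R := by linarith
  have hZ0 : 0 < Z := by linarith
  have hM1r : (1 : ℝ) ≤ M₀ := by exact_mod_cast hM
  have hL0 : 0 < L := by linarith
  have hr0 : r ≠ 0 := hr.ne_zero
  have hr1 : (1 : ℝ) ≤ r := by exact_mod_cast Nat.one_le_iff_ne_zero.mpr hr0
  have hzA : (Z ^ A) ^ γ = Z ^ (ε / 3) := by
    rw [← Real.rpow_mul hZ0.le]
    congr 1
    rw [hγd]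
    field_simp
  have hb1 : (4 : ℝ) ^ m₁.primeFactors.card ≤ C1 * Z ^ (ε / 3) := by
    refine (h4 m₁ (by omega)).trans ?_
    have : (m₁ : ℝ) ^ γ ≤ (Z ^ A) ^ γ := by
      apply Real.rpow_le_rpow (by positivity) _ hγ.le
      refine le_trans ?_ hmZ
      exact_mod_cast Nat.le_of_dvd (by omega) hd
    rw [← hzA]
    gcongr
  have hrle : (r : ℝ) ^ γ ≤ (Z ^ A) ^ γ := by
    apply Real.rpow_le_rpow (by positivity) _ hγ.le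
    refine le_trans ?_ hmZ
    exact_mod_cast Nat.le_of_dvd (by omega) hrm
  have hb2 : (2 : ℝ) ^ r.primeFactors.card ≤ C2 * Z ^ (ε / 3) := by
    refine (h2 r hr0).trans ?_
    rw [← hzA]
    gcongr
  have hb3 : (r.divisors.card : ℝ) ≤ C3 * Z ^ (ε / 3) := by
    refine (ht r hr0).trans ?_
    rw [← hzA]
    gcongr
  set G : ℝ := CG * B * (M₀ / L) * (R * T ^ 3 / r) * (Φ / c₀ + 1) * 4 ^ m₁.primeFactors.card *
    2 ^ r.primeFactors.card with hGd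
  have hG0 : 0 ≤ G := by positivity
  have hfib : ∀ w : ℤ × ℤ × ℤ, ((S.filter (fun u => u.1 = w)).card : ℝ) ≤
      G * (Nat.gcd (Int.gcd w.1 w.2.1) r : ℕ) := by
    intro w
    set Sw : Finset (ℤ × ℤ × ℤ) := (S.filter (fun u => u.1 = w)).image Prod.snd with hSw
    have hcard : Sw.card = (S.filter (fun u => u.1 = w)).card := by
      apply Finset.card_image_of_injOn
      intro x hx y hy hxy
      simp only [Finset.coe_filter, Set.mem_ofPred_eq] at hx hy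
      exact Prod.ext (hx.2.trans hy.2.symm) hxy
    have hmem : ∀ v ∈ Sw, (w, v) ∈ S := by
      intro v hv
      rw [hSw, Finset.mem_image] at hv
      obtain ⟨u, hu, rfl⟩ := hv
      rw [Finset.mem_filter] at hu
      rw [← hu.2]
      exact hu.1
    have := hG R T V L B Φ c₀ m m₁ r M₀ w.1 w.2.1 w.2.2 (fun v => φ (w, v)) Sw hR hT hV hm1 hd hM
      hM1 hr hr5 hrM hML hLR hB hc₀ hΦ (fun v hv => hC (w, v) (hmem v hv))
      (fun v hv => hφ (w, v) (hmem v hv))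
      (fun S' hS' hc => hgr w S' (fun u hu => hmem u (hS' hu)) hc)
    rw [hcard] at this
    exact this
  have hmain := hS R T G r S hR hT hT3 hG0 (Nat.one_le_iff_ne_zero.mpr hr0)
    (fun u hu => ⟨(hC u hu).a0, (hC u hu).gd.ha, (hC u hu).gd.hb, (hC u hu).gd.hc⟩) hfib
  refine hmain.trans ?_
  have hzz : Z ^ ε = Z ^ (ε / 3) * Z ^ (ε / 3) * Z ^ (ε / 3) := by
    rw [← Real.rpow_add hZ0, ← Real.rpow_add hZ0]
    congr 1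
    ring
  have hprod : (4 : ℝ) ^ m₁.primeFactors.card * 2 ^ r.primeFactors.card * r.divisors.card ≤
      (C1 * Z ^ (ε / 3)) * (C2 * Z ^ (ε / 3)) * (C3 * Z ^ (ε / 3)) := by
    gcongr
  have hRT : R * T ^ 3 / r * (R ^ 3 / T ^ 3) = R ^ 4 / r := by
    field_simp
  calc CS * G * r.divisors.card * (R ^ 3 / T ^ 3)
      = CS * CG * B * (M₀ / L) * (R * T ^ 3 / r * (R ^ 3 / T ^ 3)) * (Φ / c₀ + 1) *
        ((4 : ℝ) ^ m₁.primeFactors.card * 2 ^ r.primeFactors.card * r.divisors.card) := by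
        rw [hGd]; ring
    _ = CS * CG * B * (M₀ / L) * (R ^ 4 / r) * (Φ / c₀ + 1) *
        ((4 : ℝ) ^ m₁.primeFactors.card * 2 ^ r.primeFactors.card * r.divisors.card) := by
        rw [hRT]
    _ ≤ CS * CG * B * (M₀ / L) * (R ^ 4 / r) * (Φ / c₀ + 1) *
        ((C1 * Z ^ (ε / 3)) * (C2 * Z ^ (ε / 3)) * (C3 * Z ^ (ε / 3))) := by
        gcongr
    _ = CS * CG * C1 * C2 * C3 * B * (M₀ / L) * (R ^ 4 / r) * (Φ / c₀ + 1) * Z ^ ε := by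
        rw [hzz]; ring

end Pool.Agent.Zk77.Y16
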