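import Pool.Agent.Zk77.Y16.Core

/-! The count at one scale, `ℓ`-adic range. -/

set_option autoImplicit false

open Finset

namespace Pool.Agent.Zk77.Y16

open Pool.Agent.Zk16.Y Pool.Agent.W223.HZ Pool.Agent.Zk16.S

/-- small `Z` -/
theorem small_Z {Z₀ Z A c R CT : ℝ} {m r : ℕ} {N : ℕ} (hZ : 1 ≤ Z) (hZZ : Z ≤ Z₀) (hA : 0 ≤ A)
    (hc : 0 ≤ c) (hR : 1 ≤ R) (hCT : 0 ≤ CT) (hm : 1 ≤ m) (hmZ : (m : ℝ) ≤ Z ^ A) (hr : r ≠ 0)
    (hrm : r ∣ m) (h : (N : ℝ) ≤ CT) :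
    (N : ℝ) ≤ CT * Z₀ ^ (A + c) * (R ^ 4 / r) * Z ^ (-c) := by
  have hZ0 : 0 < Z := by linarith
  have hZ₀ : 0 < Z₀ := by linarith
  have hr1 : (1 : ℝ) ≤ r := by exact_mod_cast Nat.one_le_iff_ne_zero.mpr hr
  have hrZ : (r : ℝ) ≤ Z₀ ^ A := by
    calc (r : ℝ) ≤ m := by exact_mod_cast Nat.le_of_dvd (by omega) hrm
      _ ≤ Z ^ A := hmZ
      _ ≤ Z₀ ^ A := Real.rpow_le_rpow hZ0.le hZZ hA
  have h1 : 1 / r ≤ R ^ 4 / (r : ℝ) := by
    have : (1 : ℝ) ≤ R ^ 4 := one_le_pow₀ hR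
    gcongr
  have h2 : Z₀ ^ (-c) ≤ Z ^ (-c) := Real.rpow_le_rpow_of_nonpos hZ0 hZZ (by linarith)
  have h3 : 1 ≤ Z₀ ^ (A + c) * (R ^ 4 / r) * Z ^ (-c) := by
    calc (1 : ℝ) = Z₀ ^ A * (1 / Z₀ ^ A) * (Z₀ ^ c * Z₀ ^ (-c)) := by
          rw [← Real.rpow_add hZ₀, add_neg_cancel, Real.rpow_zero]
          field_simp
      _ ≤ Z₀ ^ A * (R ^ 4 / r) * (Z₀ ^ c * Z ^ (-c)) := by
          have h4 : 1 / Z₀ ^ A ≤ R ^ 4 / (r : ℝ) := by
            refine le_trans ?_ h1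
            gcongr
          gcongr
      _ = Z₀ ^ (A + c) * (R ^ 4 / r) * Z ^ (-c) := by
          rw [Real.rpow_add hZ₀]; ring
  calc (N : ℝ) ≤ CT * 1 := by linarith
    _ ≤ CT * (Z₀ ^ (A + c) * (R ^ 4 / r) * Z ^ (-c)) := by gcongr
    _ = CT * Z₀ ^ (A + c) * (R ^ 4 / r) * Z ^ (-c) := by ring

theorem t_SC1 (hG : S_GRP) (hS : S_SUM3) (hV : S_VAN1) (hL : S_LOC) : S_SC1 := by
  classical
  intro δ A c₃ hδ hA hc₃
  have hA0 : 0 < A := by linarith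
  -- parameters
  set K : ℕ := ⌈8 * A / δ⌉₊ with hK
  have hK1 : 1 ≤ K := Nat.one_le_ceil_iff.mpr (by positivity)
  have hKr : (1 : ℝ) ≤ K := by exact_mod_cast hK1
  have hAK : A ≤ δ / 8 * K := by
    have : 8 * A / δ ≤ K := Nat.le_ceil _
    rw [div_le_iff₀ hδ] at this
    linarith
  set n : ℕ := K + ⌈2 * (A * K + 1) / c₃⌉₊ with hn
  have hKn : K ≤ n := by omega
  have hn1 : 1 ≤ n := by omega
  have hnr : (1 : ℝ) ≤ n := by exact_mod_cast hn1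
  have hnc : A * K + 1 ≤ c₃ * n / 2 := by
    have h1 : 2 * (A * K + 1) / c₃ ≤ (⌈2 * (A * K + 1) / c₃⌉₊ : ℝ) := Nat.le_ceil _
    have h2 : (⌈2 * (A * K + 1) / c₃⌉₊ : ℝ) ≤ n := by
      have : ⌈2 * (A * K + 1) / c₃⌉₊ ≤ n := by omega
      exact_mod_cast this
    have h3 := h1.trans h2
    rw [div_le_iff₀ hc₃] at h3
    linarith
  set c1 : ℝ := min (δ / 2) (c₃ / (2 * n)) with hc1d
  have hc1 : 0 < c1 := by
    rw [hc1d]
    exact lt_min (by positivity) (by positivity)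
  have hc1a : c1 ≤ δ / 2 := min_le_left _ _
  have hc1b : c1 * n ≤ c₃ / 2 := by
    have h1 : c1 ≤ c₃ / (2 * n) := min_le_right _ _
    rw [le_div_iff₀ (by positivity)] at h1
    linarith
  obtain ⟨E, hE⟩ := hL n hn1
  set γ : ℝ := c1 / (4 * (A + 3) * (E + 1)) with hγd
  have hE0 : (0 : ℝ) ≤ E := Nat.cast_nonneg E
  have hγ : 0 < γ := by positivity
  obtain ⟨CL, hCL, hloc⟩ := hE γ hγ
  obtain ⟨CC, hCC, hcore⟩ := core hG hS hA (show 0 < c1 / 4 by positivity)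
  obtain ⟨Z1, hZ1, hb1⟩ := big (show 0 < 3 * δ / 8 by positivity) 72
  obtain ⟨Z2, hZ2, hb2⟩ := big hc₃ 240000
  obtain ⟨Z3, hZ3, hb3⟩ := big (one_pos) (((2 * n).factorial : ℝ) * 200 ^ (2 * n) * 3 ^ n)
  set Z₀ : ℝ := max (max Z1 Z2) (max Z3 200) with hZ₀d
  have hZ₀ : 1 ≤ Z₀ := hZ1.trans ((le_max_left _ _).trans (le_max_left _ _))
  obtain ⟨CT, hCT, htriv⟩ := triv hZ₀ hA
  refine ⟨c1 / 2, 2 * CC * CL + CT * Z₀ ^ (A + c1 / 2), by positivity, ?_, ?_⟩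
  · have : 1 ≤ CC * CL := one_le_mul_of_one_le_of_one_le hCC hCL
    have h2 : 0 ≤ CT * Z₀ ^ (A + c1 / 2) := by positivity
    nlinarith
  intro Z R T V m m₁ r S hZ hZR hRZ hT hT3 hV1 hVZ hm hmZ hm1 hmd hrd hrs hrm hr5 hVm hC
  have hZ0 : 0 < Z := by linarith
  have hR1 : 1 ≤ R := (Real.one_le_rpow hZ (by positivity)).trans hZR
  have hR0 : 0 < R := by linarith
  have hT0 : 0 < T := by linarith
  have hr0 : r ≠ 0 := hrs.ne_zero
  have hrp : (0 : ℝ) < r := by exact_mod_cast Nat.pos_of_ne_zero hr0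
  rcases le_total Z Z₀ with hsm | hlg
  · have h1 := htriv Z R T V m S hZ hsm hR0.le hRZ hT hT3 (by linarith) hVZ
      (fun u hu => (hC u hu).gd)
    have h2 := small_Z (c := c1 / 2) hZ hsm hA0.le (by positivity) hR1 (by linarith) hm hmZ hr0 hrm
      h1
    refine h2.trans ?_
    have h3 : CT * Z₀ ^ (A + c1 / 2) ≤ 2 * CC * CL + CT * Z₀ ^ (A + c1 / 2) := by
      have : 0 ≤ 2 * CC * CL := by positivity
      linarith
    gcongr
  -- main case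
  have hz1 : 72 < Z ^ (3 * δ / 8) :=
    hb1 Z (((le_max_left _ _).trans (le_max_left _ _)).trans hlg)
  have hz2 : 240000 < Z ^ c₃ := hb2 Z (((le_max_right _ _).trans (le_max_left _ _)).trans hlg)
  have hz3 : ((2 * n).factorial : ℝ) * 200 ^ (2 * n) * 3 ^ n < Z := by
    have := hb3 Z (((le_max_left _ _).trans (le_max_right _ _)).trans hlg)
    rwa [Real.rpow_one] at this
  have hz4 : 200 ≤ Z := ((le_max_right _ _).trans (le_max_right _ _)).trans hlg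
  obtain ⟨P, hP1, hPK, hPd⟩ := exM2 m m₁ K hm hm1 hmd hK1
  set M₂ : ℕ := rd m * P with hM₂
  have hrdp : 1 ≤ rd m := rd_pos m
  have hM₂1 : 1 ≤ M₂ := Nat.one_le_iff_ne_zero.mpr (by
    rw [hM₂]
    exact Nat.mul_ne_zero (by omega) (by omega))
  set M₀ : ℕ := 9 * M₂ with hM₀
  have hM₀1 : 1 ≤ M₀ := by omega
  have hM₀r : (0 : ℝ) < M₀ := by exact_mod_cast hM₀1
  have hm₁A : (m₁ : ℝ) ≤ Z ^ A := le_trans (by exact_mod_cast Nat.le_of_dvd (by omega) hmd) hmZ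
  have hPle : (P : ℝ) ≤ Z ^ (δ / 8) := by
    have h1 : (P : ℝ) ^ K ≤ (Z ^ (δ / 8)) ^ K := by
      calc (P : ℝ) ^ K ≤ m₁ := by exact_mod_cast hPK
        _ ≤ Z ^ A := hm₁A
        _ ≤ Z ^ (δ / 8 * K) := Real.rpow_le_rpow_of_exponent_le hZ hAK
        _ = (Z ^ (δ / 8)) ^ K := by rw [Real.rpow_mul hZ0.le, Real.rpow_natCast]
    exact le_of_pow_le_pow_left₀ (by omega) (by positivity) h1
  set L : ℝ := M₀ * Z ^ c1 with hLd
  have hzc1 : 1 ≤ Z ^ c1 := Real.one_le_rpow hZ hc1.le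
  have hML : (M₀ : ℝ) ≤ L := le_mul_of_one_le_right hM₀r.le hzc1
  have hM₀le : (M₀ : ℝ) ≤ 9 * (Z ^ ((1 : ℝ) / 5) * Z ^ (δ / 8)) := by
    rw [hM₀, hM₂]
    push_cast
    gcongr
  have hLR : L ≤ R * T ^ 3 := by
    have h1 : L ≤ 9 * (Z ^ ((1 : ℝ) / 5) * Z ^ (δ / 8)) * Z ^ (δ / 2) := by
      rw [hLd]
      have : Z ^ c1 ≤ Z ^ (δ / 2) := Real.rpow_le_rpow_of_exponent_le hZ hc1a
      gcongr
    have h2 : Z ^ (1 / 5 + δ) = Z ^ ((1 : ℝ) / 5) * Z ^ (δ / 8) * Z ^ (δ / 2) * Z ^ (3 * δ / 8) := by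
      rw [← Real.rpow_add hZ0, ← Real.rpow_add hZ0, ← Real.rpow_add hZ0]
      congr 1
      ring
    have h3 : 9 * (Z ^ ((1 : ℝ) / 5) * Z ^ (δ / 8)) * Z ^ (δ / 2) ≤ Z ^ (1 / 5 + δ) * (1 / 8) := by
      rw [h2]
      have h4 : (0 : ℝ) < Z ^ ((1 : ℝ) / 5) * Z ^ (δ / 8) * Z ^ (δ / 2) := by positivity
      nlinarith
    have h5 : (1 : ℝ) / 8 ≤ T ^ 3 := by
      calc (1 : ℝ) / 8 = (1 / 2) ^ 3 := by norm_num
        _ ≤ T ^ 3 := pow_le_pow_left₀ (by norm_num) hT 3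
    calc L ≤ Z ^ (1 / 5 + δ) * (1 / 8) := h1.trans h3
      _ ≤ R * T ^ 3 := by gcongr
  set B : ℝ := CL * Z ^ (c1 / 4) with hBd
  have hB0 : 0 ≤ B := by positivity
  have hRT : R * T ^ 3 ≤ Z ^ (A + 3) := by
    have h1 : R * T ^ 3 ≤ Z * (200 * Z) := by
      apply mul_le_mul hRZ (by linarith) (by positivity) hZ0.le
    have h2 : Z * (200 * Z) ≤ Z ^ 3 := by nlinarith [sq_nonneg Z]
    have h3 : Z ^ 3 ≤ Z ^ (A + 3) := by
      rw [← Real.rpow_natCast]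
      apply Real.rpow_le_rpow_of_exponent_le hZ
      push_cast
      linarith
    exact h1.trans (h2.trans h3)
  have hZA3 : Z ^ A ≤ Z ^ (A + 3) := Real.rpow_le_rpow_of_exponent_le hZ (by linarith)
  have hfin := hcore Z R T V L B 1 1 m m₁ r M₀ (fun _ => 0) S hZ hR1 hT hT3 hV1 hm hmZ hm1 hmd hrs
    hrm hr5 hM₀1 (fun ℓ hl hd => dvd_mul_of_dvd_right (dvd_mul_of_dvd_left
      (rd_dvd_of hm hl (hd.trans hmd)) _) _)
    (dvd_mul_of_dvd_right (dvd_mul_of_dvd_left (sq_dvd_rd hm hrs hrm) _) _) hML hLR hB0 one_pos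
    one_pos hC (fun u _ => by simp) (by
      intro w S' hS' hsame
      have hCf : ∀ u ∈ S', Cf R T V m m₁ r w.1 w.2.1 w.2.2 u.1 u.2.1 u.2.2 := fun u hu =>
        hC (w, u) (hS' u hu)
      have h240 : 240000 * V ^ 2 < m₁ := by
        have hV2 : 0 < V ^ 2 := by positivity
        nlinarith
      have hdiv : L / ((9 * M₂ : ℕ) : ℝ) = Z ^ c1 := by
        rw [hLd, ← hM₀]
        field_simp
      have hVp : (0 : ℝ) < V := by linarith
      have hm₁p : (0 : ℝ) < m₁ := by exact_mod_cast hm1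
      have hineq : ((2 * n).factorial : ℝ) * (200 * V) ^ (2 * n) *
          (L / (9 * M₂ : ℕ)) ^ (n * (n - 1)) * 3 ^ n < (m₁ : ℝ) ^ (n - K) := by
        rw [hdiv]
        have hp : (Z ^ c1) ^ (n * (n - 1)) ≤ Z ^ (c₃ * n / 2) := by
          rw [← Real.rpow_natCast, ← Real.rpow_mul hZ0.le]
          apply Real.rpow_le_rpow_of_exponent_le hZ
          have h1 : ((n * (n - 1) : ℕ) : ℝ) ≤ n * n := by
            exact_mod_cast Nat.mul_le_mul_left n (Nat.sub_le n 1)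
          calc c1 * ((n * (n - 1) : ℕ) : ℝ) ≤ c1 * (n * n) := by gcongr
            _ = c1 * n * n := by ring
            _ ≤ c₃ / 2 * n := by gcongr
            _ = c₃ * n / 2 := by ring
        have hmK : (m₁ : ℝ) ^ K ≤ Z ^ (A * K) := by
          rw [Real.rpow_mul hZ0.le, Real.rpow_natCast]
          gcongr
        have hmn : V ^ (2 * n) * Z ^ (c₃ * n) ≤ (m₁ : ℝ) ^ n := by
          calc V ^ (2 * n) * Z ^ (c₃ * n) = (V ^ 2 * Z ^ c₃) ^ n := by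
                rw [mul_pow, ← pow_mul, Real.rpow_mul hZ0.le, Real.rpow_natCast]
            _ ≤ (m₁ : ℝ) ^ n := by gcongr
        have hzz : Z * Z ^ (c₃ * n / 2) * Z ^ (A * K) ≤ Z ^ (c₃ * n) := by
          have : Z * Z ^ (c₃ * n / 2) * Z ^ (A * K) = Z ^ (1 + c₃ * n / 2 + A * K) := by
            rw [Real.rpow_add hZ0, Real.rpow_add hZ0, Real.rpow_one]
          rw [this]
          apply Real.rpow_le_rpow_of_exponent_le hZ
          linarith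
        have hmain : ((2 * n).factorial : ℝ) * (200 * V) ^ (2 * n) * (Z ^ c1) ^ (n * (n - 1)) *
            3 ^ n * (m₁ : ℝ) ^ K < (m₁ : ℝ) ^ (n - K) * (m₁ : ℝ) ^ K := by
          rw [← pow_add, Nat.sub_add_cancel hKn]
          calc ((2 * n).factorial : ℝ) * (200 * V) ^ (2 * n) * (Z ^ c1) ^ (n * (n - 1)) *
                3 ^ n * (m₁ : ℝ) ^ K
              = (((2 * n).factorial : ℝ) * 200 ^ (2 * n) * 3 ^ n) *
                (V ^ (2 * n) * (Z ^ c1) ^ (n * (n - 1)) * (m₁ : ℝ) ^ K) := by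
                rw [mul_pow]; ring
            _ < Z * (V ^ (2 * n) * (Z ^ c1) ^ (n * (n - 1)) * (m₁ : ℝ) ^ K) := by
                apply mul_lt_mul_of_pos_right hz3 (by positivity)
            _ ≤ Z * (V ^ (2 * n) * Z ^ (c₃ * n / 2) * Z ^ (A * K)) := by gcongr
            _ = V ^ (2 * n) * (Z * Z ^ (c₃ * n / 2) * Z ^ (A * K)) := by ring
            _ ≤ V ^ (2 * n) * Z ^ (c₃ * n) := by gcongr
            _ ≤ (m₁ : ℝ) ^ n := hmn
        exact lt_of_mul_lt_mul_right hmain (by positivity)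
      have hvan : Van n S' := hV n K R T V L m m₁ r M₂ w.1 w.2.1 w.2.2 S' hn1 hK1 hKn hT hV1 hm1
        hmd hM₂1 hPd hML hCf (fun u hu v hv => (hsame u hu v hv).1) h240 hineq
      have hcard := hloc R T V L (Z ^ (A + 3)) m m₁ r w.1 w.2.1 w.2.2 S' hR1 hT hV1
        (le_trans (by exact_mod_cast hM₀1) hML) (Real.one_le_rpow hZ (by linarith)) hm hRT
        (hVZ.trans hZA3) (hLR.trans hRT) (hmZ.trans hZA3) hCf
        (fun u hu v hv => (hsame u hu v hv).1.2.1) hvan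
      refine hcard.trans ?_
      rw [hBd]
      have h5 : (Z ^ (A + 3)) ^ (E * γ) ≤ Z ^ (c1 / 4) := by
        rw [← Real.rpow_mul hZ0.le]
        apply Real.rpow_le_rpow_of_exponent_le hZ
        rw [hγd]
        have h6 : (A + 3) * (E * (c1 / (4 * (A + 3) * (E + 1)))) = c1 / 4 * (E / (E + 1)) := by
          field_simp
        rw [h6]
        have h7 : (E : ℝ) / (E + 1) ≤ 1 := by
          rw [div_le_one (by positivity)]
          linarith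
        have h8 : 0 ≤ c1 / 4 := by positivity
        nlinarith
      gcongr)
  have hML2 : (M₀ : ℝ) / L = Z ^ (-c1) := by
    rw [hLd, Real.rpow_neg hZ0.le]
    field_simp
  rw [hML2] at hfin
  refine hfin.trans ?_
  have h9 : CC * B * Z ^ (-c1) * (R ^ 4 / r) * (1 / 1 + 1) * Z ^ (c1 / 4) =
      2 * CC * CL * (R ^ 4 / r) * Z ^ (-(c1 / 2)) := by
    have h10 : Z ^ (-(c1 / 2)) = Z ^ (c1 / 4) * Z ^ (-c1) * Z ^ (c1 / 4) := by
      rw [← Real.rpow_add hZ0, ← Real.rpow_add hZ0]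
      congr 1
      ring
    rw [h10, hBd]
    ring
  rw [h9]
  have h11 : 2 * CC * CL ≤ 2 * CC * CL + CT * Z₀ ^ (A + c1 / 2) := by
    have : 0 ≤ CT * Z₀ ^ (A + c1 / 2) := by positivity
    linarith
  gcongr

end Pool.Agent.Zk77.Y16
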